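import Pool.Agent.Q33.QPhi.Basic

/-! The `q`-congruence modulo `Φ_n(q)^2` with numerator parameters `q, …, q^d`. -/

namespace Pool.Agent.Results.MP_4d1f21_nt.NumeratorParameters

open Finset Polynomial Pool.Agent.Q33.QPhi

/-- the `q`-shifted factorial `(a;x)_k = ∏_{j<k} (1 - a x^j)` -/
def qf {R : Type*} [CommRing R] (a x : R) (k : ℕ) : R := ∏ j ∈ range k, (1 - a * x ^ j)

/-- the sum `∑_{k<n} (q,q^2,…,q^d;q^m)_k/(q^m;q^m)_k^d q^(mk)` with `m = d(d+1)/2`, in `ℚ(q)` -/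
noncomputable def S (d n : ℕ) : RatFunc ℚ :=
  ∑ k ∈ range n, (∏ i ∈ Icc 1 d, qf (RatFunc.X ^ i) (RatFunc.X ^ (d * (d + 1) / 2)) k) /
    (qf (RatFunc.X ^ (d * (d + 1) / 2)) (RatFunc.X ^ (d * (d + 1) / 2)) k) ^ d *
    RatFunc.X ^ (d * (d + 1) / 2 * k)

/-- the inclusion `ℤ[q] → ℚ(q)` -/
noncomputable def incl : ℤ[X] →+* RatFunc ℚ :=
  (algebraMap ℚ[X] (RatFunc ℚ)).comp (Polynomial.mapRingHom (Int.castRingHom ℚ))

theorem qf_eq {R : Type*} [CommRing R] (a x : R) (k : ℕ) : qf a x k = poch a x k := rfl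

theorem map_qf {R T : Type*} [CommRing R] [CommRing T] (f : R →+* T) (a x : R) (k : ℕ) :
    f (qf a x k) = qf (f a) (f x) k := by
  unfold qf
  rw [map_prod]
  refine prod_congr rfl fun j _ => ?_
  rw [map_sub, map_one, map_mul, map_pow]

theorem coprime_cyc {n e : ℕ} (hn : 0 < n) (he : ¬ n ∣ e) :
    IsCoprime (1 - X ^ e : ℚ[X]) (cyclotomic n ℚ) := by
  have hirr : Irreducible (cyclotomic n ℚ) := cyclotomic.irreducible_rat hn
  rw [isCoprime_comm, hirr.coprime_iff_not_dvd]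
  intro hdvd
  have hne : n ≠ 0 := by omega
  obtain ⟨z, hz⟩ : ∃ z : ℂ, IsPrimitiveRoot z n := ⟨_, Complex.isPrimitiveRoot_exp n hne⟩
  have h1 : IsRoot (cyclotomic n ℂ) z := hz.isRoot_cyclotomic hn
  have h2 : cyclotomic n ℂ ∣ (1 - X ^ e : ℂ[X]) := by
    have h3 := Polynomial.map_dvd (algebraMap ℚ ℂ) hdvd
    rw [map_cyclotomic] at h3
    simpa using h3
  have h3 : IsRoot (1 - X ^ e : ℂ[X]) z := h1.dvd h2
  rw [IsRoot.def, eval_sub, eval_one, eval_pow, eval_X, sub_eq_zero] at h3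
  exact he (hz.dvd_of_pow_eq_one e h3.symm)

theorem coprime_qf {n m k : ℕ} (hn : 0 < n) (hc : n.Coprime m) (hk : k < n) :
    IsCoprime (qf (X ^ m) (X ^ m) k : ℚ[X]) (cyclotomic n ℚ) := by
  unfold qf
  apply IsCoprime.prod_left
  intro j hj
  rw [mem_range] at hj
  have e : (X ^ m * (X ^ m) ^ j : ℚ[X]) = X ^ (m * (j + 1)) := by
    rw [← pow_mul, ← pow_add]
    congr 1
    ring
  rw [e]
  apply coprime_cyc hn
  intro h
  have h1 := hc.dvd_of_dvd_mul_left h
  have := Nat.le_of_dvd (by omega) h1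
  omega

/-- **MP_4d1f21**, Q1: let `d ≥ 3` and `n > 1` with `n ≡ -1 (mod m)`, `m = d(d+1)/2`. Then the sum
can be written as `A/B` with `A, B ∈ ℤ[q]` and `B` coprime to `Φ_n(q)`, and for every representation
`A/B` of the sum with `A, B ∈ ℤ[q]`, `B ≠ 0`, the numerator `A` is divisible by `Φ_n(q)^2`. -/
theorem result (d n : ℕ) (hd : 3 ≤ d) (hn1 : 1 < n) (hn : d * (d + 1) / 2 ∣ n + 1) :
    (∃ A B : ℤ[X], S d n = incl A / incl B ∧ IsCoprime (B.map (Int.castRingHom ℚ)) (cyclotomic n ℚ)) ∧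
    ∀ A B : ℤ[X], B ≠ 0 → S d n = incl A / incl B → cyclotomic n ℤ ^ 2 ∣ A := by
  obtain ⟨t, ht⟩ := hn
  set m := d * (d + 1) / 2 with hm
  have hm2 : 2 * m = d * (d + 1) := by
    rw [hm]
    exact Nat.mul_div_cancel' (Nat.even_mul_succ_self d).two_dvd
  have hm0 : m ≠ 0 := by
    intro h0
    rw [h0] at hm2
    nlinarith
  have hc : n.Coprime m := by
    have h1 : Nat.gcd n m ∣ n + 1 := (Nat.gcd_dvd_right n m).trans ⟨t, ht⟩
    have h2 : Nat.gcd n m ∣ 1 := (Nat.dvd_add_right (Nat.gcd_dvd_left n m)).1 h1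
    exact Nat.dvd_one.1 h2
  have hn0 : 0 < n := by omega
  -- the common denominator and the numerator
  set E : ℤ[X] := (qf (X ^ m) (X ^ m) (n - 1)) ^ d with hE
  set A0 : ℤ[X] := ∑ k ∈ range n, (∏ i ∈ Icc 1 d, qf (X ^ i) (X ^ m) k) *
    (∏ j ∈ Ico k (n - 1), (1 - X ^ m * (X ^ m) ^ j)) ^ d * X ^ (m * k) with hA0
  have hX : incl X = RatFunc.X := by
    unfold incl
    rw [RingHom.comp_apply, coe_mapRingHom, map_X]
    exact RatFunc.algebraMap_X
  have hinj : Function.Injective incl := by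
    unfold incl
    rw [RingHom.coe_comp]
    exact (RatFunc.algebraMap_injective ℚ).comp (Polynomial.map_injective _ Int.cast_injective)
  have hsplit : ∀ (R : Type) [CommRing R] (x : R) (k : ℕ), k < n →
      qf x x (n - 1) = qf x x k * ∏ j ∈ Ico k (n - 1), (1 - x * x ^ j) := by
    intro R _ x k hk
    unfold qf
    rw [range_eq_Ico, range_eq_Ico, prod_Ico_consecutive _ (Nat.zero_le _) (by omega)]
  have hqne : ∀ k, k < n → qf (X ^ m : ℤ[X]) (X ^ m) k ≠ 0 := by
    intro k _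
    unfold qf
    rw [prod_ne_zero_iff]
    intro j _ h0
    have h1 := congrArg (eval 0) h0
    rw [eval_sub, eval_one, eval_mul, eval_pow, eval_X, zero_pow hm0, zero_mul, sub_zero, eval_zero] at h1
    exact one_ne_zero h1
  have hSE : S d n * incl E = incl A0 := by
    rw [hE, hA0, map_sum, S, sum_mul]
    refine sum_congr rfl fun k hk => ?_
    rw [mem_range] at hk
    rw [map_mul, map_mul, map_pow, map_pow, map_pow, map_prod, hX, map_qf, map_pow, hX,
      hsplit _ _ k hk, map_prod]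
    have h1 : qf (RatFunc.X ^ m : RatFunc ℚ) (RatFunc.X ^ m) k ≠ 0 := by
      have h2 : incl (qf (X ^ m) (X ^ m) k) ≠ 0 := by
        rw [Ne, map_eq_zero_iff incl hinj]
        exact hqne k hk
      rw [map_qf, map_pow, hX] at h2
      exact h2
    have h3 : ∏ i ∈ Icc 1 d, incl (qf (X ^ i) (X ^ m) k)
        = ∏ i ∈ Icc 1 d, qf (RatFunc.X ^ i) (RatFunc.X ^ m) k := by
      refine prod_congr rfl fun i _ => ?_
      rw [map_qf, map_pow, map_pow, hX]
    have h4 : ∏ j ∈ Ico k (n - 1), incl (1 - X ^ m * (X ^ m) ^ j)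
        = ∏ j ∈ Ico k (n - 1), (1 - (RatFunc.X ^ m : RatFunc ℚ) * (RatFunc.X ^ m) ^ j) := by
      refine prod_congr rfl fun i _ => ?_
      rw [map_sub, map_one, map_mul, map_pow incl (X ^ m), map_pow, hX]
    rw [h3, h4, mul_pow, ← hm]
    field_simp
  have hEne : E ≠ 0 := by
    rw [hE]
    exact pow_ne_zero _ (hqne _ (by omega))
  have hcopE : IsCoprime (E.map (Int.castRingHom ℚ)) (cyclotomic n ℚ) := by
    have h1 : E.map (Int.castRingHom ℚ) = (qf (X ^ m) (X ^ m) (n - 1)) ^ d := by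
      have h2 : E.map (Int.castRingHom ℚ) = mapRingHom (Int.castRingHom ℚ) E := rfl
      rw [h2, hE, map_pow, map_qf, map_pow, coe_mapRingHom, map_X]
    rw [h1]
    exact (coprime_qf hn0 hc (by omega)).pow_left
  refine ⟨⟨A0, E, ?_, hcopE⟩, ?_⟩
  · rw [← hSE, mul_div_assoc, div_self, mul_one]
    rw [Ne, map_eq_zero_iff incl hinj]
    exact hEne
  -- the ring `ℚ[q]/(Φ_n^2)`
  have hmain : (cyclotomic n ℚ) ^ 2 ∣ A0.map (Int.castRingHom ℚ) := by
    set B := AdjoinRoot ((cyclotomic n ℚ) ^ 2) with hB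
    set π : ℚ[X] →+* B := AdjoinRoot.mk ((cyclotomic n ℚ) ^ 2) with hπ
    have hker : ∀ P : ℚ[X], π P = 0 ↔ (cyclotomic n ℚ) ^ 2 ∣ P := fun P => AdjoinRoot.mk_eq_zero
    rw [← hker]
    have hunit : ∀ P : ℚ[X], IsCoprime P (cyclotomic n ℚ) → IsUnit (π P) := by
      intro P hP
      have h1 : IsCoprime P ((cyclotomic n ℚ) ^ 2) := hP.pow_right
      obtain ⟨a, b, hab⟩ := h1
      have h2 := congrArg π hab
      rw [map_add, map_mul, map_mul, map_one, (hker _).2 dvd_rfl, mul_zero, add_zero] at h2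
      rw [mul_comm] at h2
      exact IsUnit.of_mul_eq_one _ h2
    have hqfunit : ∀ k, k < n → IsUnit (qf (π X ^ m) (π X ^ m) k) := by
      intro k hk
      have h1 := hunit _ (coprime_qf hn0 hc hk)
      rw [map_qf, map_pow] at h1
      exact h1
    set h : ℕ → B := fun k => Ring.inverse (qf (π X ^ m) (π X ^ m) k) with hh
    have hh1 : ∀ k, k < n → h k * poch (π X ^ m) (π X ^ m) k = 1 := fun k hk =>
      Ring.inverse_mul_cancel _ (hqfunit k hk)
    have he : (π X ^ n - 1) ^ 2 = 0 := by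
      rw [← map_pow, ← map_one π, ← map_sub, ← map_pow, hker]
      exact pow_dvd_pow_of_dvd (cyclotomic.dvd_X_pow_sub_one n ℚ) 2
    have hu : ∀ j, 1 ≤ j → j < n → IsUnit (1 - (π X ^ m) ^ j) := by
      intro j hj1 hj2
      have h1 := hunit (1 - X ^ (m * j)) (coprime_cyc hn0 (by
        intro h2
        have h3 := hc.dvd_of_dvd_mul_left h2
        have := Nat.le_of_dvd (by omega) h3
        omega))
      rw [map_sub, map_one, map_pow, pow_mul] at h1
      exact h1
    have hmu : IsUnit ((m : ℕ) : B) := by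
      have h1 : IsUnit (algebraMap ℚ B (m : ℚ)) := by
        apply IsUnit.map
        exact isUnit_iff_ne_zero.2 (by exact_mod_cast hm0)
      rw [map_natCast] at h1
      exact h1
    have hz := main (q := π X) (e := π X ^ n - 1) he hd hm ht hn1 (by ring) hu hmu h hh1
    -- multiply by the common denominator
    have h5 : π (A0.map (Int.castRingHom ℚ)) = (qf (π X ^ m) (π X ^ m) (n - 1)) ^ d *
        ∑ k ∈ range n, (∏ i ∈ Icc 1 d, (poch (π X ^ i) (π X ^ m) k * h k)) * (π X ^ m) ^ k := by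
      have h6 : π (A0.map (Int.castRingHom ℚ)) = (π.comp (mapRingHom (Int.castRingHom ℚ))) A0 := rfl
      rw [h6]
      set φ := π.comp (mapRingHom (Int.castRingHom ℚ)) with hφ
      have hφX : φ X = π X := by
        rw [hφ, RingHom.comp_apply, coe_mapRingHom, map_X]
      rw [hA0, map_sum, mul_sum]
      refine sum_congr rfl fun k hk => ?_
      rw [mem_range] at hk
      rw [map_mul, map_mul, map_pow, map_pow, map_prod, map_prod, hφX, hsplit _ _ k hk]
      have h7 : ∏ i ∈ Icc 1 d, φ (qf (X ^ i) (X ^ m) k) = ∏ i ∈ Icc 1 d, poch (π X ^ i) (π X ^ m) k := by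
        refine prod_congr rfl fun i _ => ?_
        rw [map_qf, map_pow, map_pow, hφX, qf_eq]
      have h8 : ∏ j ∈ Ico k (n - 1), φ (1 - X ^ m * (X ^ m) ^ j)
          = ∏ j ∈ Ico k (n - 1), (1 - π X ^ m * (π X ^ m) ^ j) := by
        refine prod_congr rfl fun i _ => ?_
        rw [map_sub, map_one, map_mul, map_pow φ (X ^ m), map_pow, hφX]
      rw [h7, h8, prod_mul_distrib, prod_const, Nat.card_Icc, Nat.add_sub_cancel, mul_pow, pow_mul]
      have h9 : (qf (π X ^ m) (π X ^ m) k) ^ d * h k ^ d = 1 := by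
        rw [← mul_pow, mul_comm, qf_eq, hh1 k hk, one_pow]
      linear_combination (-(∏ i ∈ Icc 1 d, poch (π X ^ i) (π X ^ m) k) *
        (∏ j ∈ Ico k (n - 1), (1 - π X ^ m * (π X ^ m) ^ j)) ^ d * (π X ^ m) ^ k) * h9
    rw [h5, hz, mul_zero]
  intro A B' hB' hS
  have h10 : E * A = A0 * B' := by
    apply hinj
    rw [map_mul, map_mul, ← hSE, hS]
    have h11 : incl B' ≠ 0 := by
      rw [Ne, map_eq_zero_iff incl hinj]
      exact hB'
    field_simp
  have h12 : (cyclotomic n ℚ) ^ 2 ∣ A.map (Int.castRingHom ℚ) := by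
    have h13 : (cyclotomic n ℚ) ^ 2 ∣ E.map (Int.castRingHom ℚ) * A.map (Int.castRingHom ℚ) := by
      rw [← Polynomial.map_mul, h10, Polynomial.map_mul]
      exact hmain.mul_right _
    exact (hcopE.symm.pow_left).dvd_of_dvd_mul_left h13
  have h14 : ((cyclotomic n ℤ) ^ 2).map (Int.castRingHom ℚ) ∣ A.map (Int.castRingHom ℚ) := by
    rw [Polynomial.map_pow, map_cyclotomic]
    exact h12
  exact (Polynomial.map_dvd_map _ Int.cast_injective ((cyclotomic.monic n ℤ).pow 2)).1 h14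

end Pool.Agent.Results.MP_4d1f21_nt.NumeratorParameters
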